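import Pool.Agent.H14.AVR.Stmts3

/-!
# AVR, module DNF: lower bound for the number of equations with squarefree discriminant
-/

set_option autoImplicit false

namespace Pool.AVR

open Polynomial

namespace H10DNF

lemma disc_map {R T : Type} [CommRing R] [CommRing T] (φ : R →+* T) (a b c : R) :
    φ (disc a b c) = disc (φ a) (φ b) (φ c) := by
  have h4 : φ 4 = 4 := map_ofNat φ 4
  have h18 : φ 18 = 18 := map_ofNat φ 18
  have h27 : φ 27 = 27 := map_ofNat φ 27
  simp only [disc, map_add, map_sub, map_mul, map_pow, h4, h18, h27]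

section

variable {F : Type} [Field F]

lemma adj_finite [Finite F] {M : F[X]} (hM : M.Monic) : Finite (AdjoinRoot M) := by
  have : Module.Finite F (AdjoinRoot M) := (AdjoinRoot.powerBasis' hM).finite
  exact Module.finite_of_finite F

lemma adj_card [Finite F] {M : F[X]} (hM : M.Monic) :
    Nat.card (AdjoinRoot M) = Nat.card F ^ M.natDegree := by
  have : Module.Finite F (AdjoinRoot M) := (AdjoinRoot.powerBasis' hM).finite
  rw [Module.natCard_eq_pow_finrank (K := F), (AdjoinRoot.powerBasis' hM).finrank,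
    AdjoinRoot.powerBasis'_dim]

/-- The set of good triples modulo `M`. -/
def WW (S : Finset F[X]) (M : F[X]) : Set (AdjoinRoot M × AdjoinRoot M × AdjoinRoot M) :=
  {w | ∀ P ∈ S, ∀ f : F[X] × F[X] × F[X], AdjoinRoot.mk M f.1 = w.1 →
    AdjoinRoot.mk M f.2.1 = w.2.1 → AdjoinRoot.mk M f.2.2 = w.2.2 →
    disc (AdjoinRoot.mk (P ^ 2) f.1) (AdjoinRoot.mk (P ^ 2) f.2.1)
      (AdjoinRoot.mk (P ^ 2) f.2.2) ≠ 0}

/-- The good triples modulo `P²`. -/
def GP (P : F[X]) : Set (AdjoinRoot (P ^ 2) × AdjoinRoot (P ^ 2) × AdjoinRoot (P ^ 2)) :=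
  {t | disc t.1 t.2.1 t.2.2 ≠ 0}

lemma coprime_sq {P Q : F[X]} (hPm : P.Monic) (hP : Irreducible P) (hQm : Q.Monic)
    (hQ : Irreducible Q) (hne : P ≠ Q) : IsCoprime (P ^ 2) (Q ^ 2) := by
  apply IsCoprime.pow
  rw [hP.coprime_iff_not_dvd]
  intro hd
  exact hne (eq_of_monic_of_associated hPm hQm (hP.associated_of_dvd hQ hd))

lemma crt (S : Finset F[X]) (hS : ∀ P ∈ S, P.Monic ∧ Irreducible P)
    (t : ∀ P : S, AdjoinRoot (P.1 ^ 2)) :
    ∃ f : F[X], ∀ P : S, AdjoinRoot.mk (P.1 ^ 2) f = t P := by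
  choose g hg using fun P : S => AdjoinRoot.mk_surjective (g := P.1 ^ 2) (t P)
  have hI : Pairwise (Function.onFun IsCoprime
      (fun P : S => Ideal.span {P.1 ^ 2} : S → Ideal F[X])) := by
    intro P Q hne
    change IsCoprime (Ideal.span {P.1 ^ 2}) (Ideal.span {Q.1 ^ 2})
    rw [Ideal.isCoprime_span_singleton_iff]
    exact coprime_sq (hS _ P.2).1 (hS _ P.2).2 (hS _ Q.2).1 (hS _ Q.2).2
      (fun h => hne (Subtype.ext h))
  obtain ⟨f, hf⟩ := Ideal.exists_forall_sub_mem_ideal hI g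
  refine ⟨f, fun P => ?_⟩
  rw [← hg P, AdjoinRoot.mk_eq_mk]
  exact Ideal.mem_span_singleton.mp (hf P)

lemma WW_card [Finite F] (S : Finset F[X]) (hS : ∀ P ∈ S, P.Monic ∧ Irreducible P) :
    ∏ P ∈ S, (GP P).ncard ≤ (WW S (∏ P ∈ S, P ^ 2)).ncard := by
  classical
  set M : F[X] := ∏ P ∈ S, P ^ 2 with hMdef
  have hM : M.Monic := monic_prod_of_monic _ _ (fun P hP => (hS P hP).1.pow 2)
  have hdvd : ∀ P ∈ S, P ^ 2 ∣ M := fun P hP => Finset.dvd_prod_of_mem _ hP
  have hfin : Finite (AdjoinRoot M) := adj_finite hM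
  have hlift : ∀ t : (∀ P : S, GP P.1), ∃ f : F[X] × F[X] × F[X], ∀ P : S,
      (AdjoinRoot.mk (P.1 ^ 2) f.1, AdjoinRoot.mk (P.1 ^ 2) f.2.1,
        AdjoinRoot.mk (P.1 ^ 2) f.2.2) = (t P).1 := by
    intro t
    obtain ⟨f1, h1⟩ := crt S hS (fun P => (t P).1.1)
    obtain ⟨f2, h2⟩ := crt S hS (fun P => (t P).1.2.1)
    obtain ⟨f3, h3⟩ := crt S hS (fun P => (t P).1.2.2)
    refine ⟨(f1, f2, f3), fun P => ?_⟩
    simp only [h1 P, h2 P, h3 P]
  choose f hf using hlift
  have hred : ∀ P ∈ S, ∀ u v : F[X], AdjoinRoot.mk M u = AdjoinRoot.mk M v →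
      AdjoinRoot.mk (P ^ 2) u = AdjoinRoot.mk (P ^ 2) v := by
    intro P hP u v h
    rw [AdjoinRoot.mk_eq_mk] at h ⊢
    exact (hdvd P hP).trans h
  let Φ : (∀ P : S, GP P.1) → WW S M := fun t =>
    ⟨(AdjoinRoot.mk M (f t).1, AdjoinRoot.mk M (f t).2.1, AdjoinRoot.mk M (f t).2.2), by
      intro P hP g h1 h2 h3
      rw [hred P hP _ _ h1, hred P hP _ _ h2, hred P hP _ _ h3]
      have h := hf t ⟨P, hP⟩
      have h4 := (t ⟨P, hP⟩).2
      rw [← h] at h4
      exact h4⟩
  have hΦ : Function.Injective Φ := by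
    intro t t' h
    have h0 := congrArg Subtype.val h
    simp only [Φ, Prod.mk.injEq] at h0
    funext P
    apply Subtype.ext
    rw [← hf t P, ← hf t' P, hred P.1 P.2 _ _ h0.1, hred P.1 P.2 _ _ h0.2.1,
      hred P.1 P.2 _ _ h0.2.2]
  have h1 := Nat.card_le_card_of_injective Φ hΦ
  rw [Nat.card_pi] at h1
  calc ∏ P ∈ S, (GP P).ncard = ∏ P : S, Nat.card (GP P.1) := by
        rw [← Finset.prod_coe_sort]
        rfl
    _ ≤ Nat.card (WW S M) := h1
    _ = (WW S M).ncard := rfl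

lemma Fam_finite [Finite F] (n : ℕ) : (Fam F n).Finite := by
  have h : ∀ k : ℕ, {p : F[X] | p.natDegree ≤ k}.Finite := by
    intro k
    have hfin : Finite (degreeLT F (k + 1)) :=
      Finite.of_equiv _ (degreeLTEquiv F (k + 1)).symm.toEquiv
    have : {p : F[X] | p.natDegree ≤ k} ⊆ (degreeLT F (k + 1) : Set F[X]) := by
      intro p hp
      simp only [SetLike.mem_coe, mem_degreeLT]
      exact lt_of_le_of_lt degree_le_natDegree (by exact_mod_cast Nat.lt_succ_of_le hp)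
    exact (Set.toFinite _).subset this
  refine ((h (2 * n)).prod ((h (4 * n)).prod (h (6 * n)))).subset ?_
  rintro ⟨a, b, c⟩ ⟨h1, h2, h3⟩
  exact ⟨h1, h2, h3⟩

end

end H10DNF

open H10DNF in
theorem dnf_thm (hEQF : EQFStmt) (hTAI : TAIStmt) (hTOP : TOPStmt) : DNFStmt := by
  classical
  intro F _ _ h3 ε hε
  obtain ⟨D, N₀, hD⟩ := hTAI F h3 ε hε
  refine ⟨D, fun S hS hSD => ?_⟩
  set M : F[X] := ∏ P ∈ S, P ^ 2 with hMdef
  have hM : M.Monic := monic_prod_of_monic _ _ (fun P hP => (hS P hP).1.pow 2)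
  refine ⟨max N₀ (M.natDegree + 1), fun n hn => ⟨(Fam_finite n).subset (Set.sep_subset _ _), ?_⟩⟩
  have hnN : N₀ ≤ n := (le_max_left _ _).trans hn
  have hnM : M.natDegree + 1 ≤ n := (le_max_right _ _).trans hn
  set q : ℝ := (Nat.card F : ℝ) with hq
  have hq0 : 0 < q := by rw [hq]; exact_mod_cast Nat.card_pos
  set V : Set (DualNumber F × DualNumber F × DualNumber F) := {v | disc v.1 v.2.1 v.2.2 ≠ 0}
    with hV
  set A : Set (F[X] × F[X] × F[X]) := {f ∈ Fam F n | (AdjoinRoot.mk M f.1, AdjoinRoot.mk M f.2.1,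
    AdjoinRoot.mk M f.2.2) ∈ WW S M ∧
        (top (2 * n) f.1, top (4 * n) f.2.1, top (6 * n) f.2.2) ∈ V} with hA
  set B : Set (F[X] × F[X] × F[X]) := {f ∈ Fam F n | ∃ P : F[X], P.Monic ∧ Irreducible P ∧
    D < P.natDegree ∧ P ^ 2 ∣ disc f.1 f.2.1 f.2.2} with hB
  have hcount := hEQF F n M hM.ne_zero (by omega) (by omega) (WW S M) V
  rw [← hA] at hcount
  have hBc : (B.ncard : ℝ) ≤ ε * q ^ (12 * n + 3) := hD n hnN
  have hAfin : A.Finite := (Fam_finite n).subset (Set.sep_subset _ _)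
  have hBfin : B.Finite := (Fam_finite n).subset (Set.sep_subset _ _)
  have hSFfin : (SF F n).Finite := (Fam_finite n).subset (Set.sep_subset _ _)
  have hsub : A ⊆ SF F n ∪ B := by
    rintro f ⟨hf, hfW, hfV⟩
    by_cases hfB : f ∈ B
    · exact Or.inr hfB
    refine Or.inl ⟨hf, ?_, ?_⟩
    · have hne : disc f.1 f.2.1 f.2.2 ≠ 0 := by
        intro h0
        apply hfV
        have := (hTOP F n 0 (by omega)).2 f hf
        change disc (top (2 * n) f.1) (top (4 * n) f.2.1) (top (6 * n) f.2.2) = 0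
        rw [← this, h0]
        simp [top]
        rfl
      rw [squarefree_iff_irreducible_sq_not_dvd_of_ne_zero hne]
      intro P hP hdvd
      set Q := normalize P with hQ
      have hass : Associated Q P := normalize_associated P
      have hQm : Q.Monic := monic_normalize hP.ne_zero
      have hQi : Irreducible Q := hass.symm.irreducible hP
      have hQd : Q ^ 2 ∣ disc f.1 f.2.1 f.2.2 := by
        refine dvd_trans ?_ hdvd
        rw [sq]
        exact mul_dvd_mul hass.dvd hass.dvd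
      by_cases hdeg : Q.natDegree ≤ D
      · have hQS := hSD Q hQm hQi hdeg
        have := hfW Q hQS f rfl rfl rfl
        apply this
        rw [← disc_map, AdjoinRoot.mk_eq_zero]
        exact hQd
      · exact hfB ⟨hf, Q, hQm, hQi, by omega, hQd⟩
    · by_contra hlt
      push Not at hlt
      apply hfV
      have := (hTOP F n 0 (by omega)).2 f hf
      change disc (top (2 * n) f.1) (top (4 * n) f.2.1) (top (6 * n) f.2.2) = 0
      rw [← this]
      unfold top
      rw [coeff_eq_zero_of_natDegree_lt (by omega), coeff_eq_zero_of_natDegree_lt (by omega)]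
      rfl
  have hle : (A.ncard : ℝ) ≤ (SF F n).ncard + B.ncard := by
    have h1 := (Set.ncard_le_ncard hsub (hSFfin.union hBfin)).trans (Set.ncard_union_le _ _)
    exact_mod_cast h1
  have hWc : ((∏ P ∈ S, (GP P).ncard : ℕ) : ℝ) ≤ ((WW S M).ncard : ℝ) := by
    exact_mod_cast WW_card S hS
  have hcR : (A.ncard : ℝ) * (q ^ (3 * M.natDegree) * q ^ 6) =
      q ^ (12 * n + 3) * ((WW S M).ncard * V.ncard) := by
    rw [hq]
    exact_mod_cast hcount
  have hdual : dens (DualNumber F) = V.ncard / q ^ 6 := by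
    have hcard : (Nat.card (DualNumber F) : ℝ) = q ^ 2 := by
      have : Nat.card (DualNumber F) = Nat.card F ^ 2 := by
        rw [sq]
        exact Nat.card_prod F F
      rw [this, hq]
      push_cast
      rfl
    unfold dens
    rw [hcard, ← pow_mul]
  have hprod : ∏ P ∈ S, dens (AdjoinRoot (P ^ 2)) =
      ((∏ P ∈ S, (GP P).ncard : ℕ) : ℝ) / q ^ (3 * M.natDegree) := by
    have h1 : ∀ P ∈ S, dens (AdjoinRoot (P ^ 2)) =
        ((GP P).ncard : ℝ) / q ^ (3 * (P ^ 2).natDegree) := by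
      intro P hP
      have : (Nat.card (AdjoinRoot (P ^ 2)) : ℝ) = q ^ (P ^ 2).natDegree := by
        rw [adj_card ((hS P hP).1.pow 2), hq]
        push_cast
        rfl
      unfold dens
      rw [this, ← pow_mul, mul_comm (P ^ 2).natDegree 3]
      rfl
    rw [Finset.prod_congr rfl h1, Finset.prod_div_distrib, Finset.prod_pow_eq_pow_sum,
      ← Finset.mul_sum]
    push_cast
    congr 3
    rw [hMdef, natDegree_prod_of_monic _ _ (fun P hP => (hS P hP).1.pow 2)]
  have hAlow : q ^ (12 * n + 3) * (dens (DualNumber F) * ∏ P ∈ S, dens (AdjoinRoot (P ^ 2))) ≤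
      A.ncard := by
    have hden : 0 < q ^ (3 * M.natDegree) * q ^ 6 := by positivity
    have hAeq : (A.ncard : ℝ) = q ^ (12 * n + 3) * ((WW S M).ncard * V.ncard) /
        (q ^ (3 * M.natDegree) * q ^ 6) := by
      rw [eq_div_iff hden.ne', hcR]
    rw [hAeq, hdual, hprod, le_div_iff₀ hden]
    have h2 : q ^ (12 * n + 3) * ((V.ncard : ℝ) / q ^ 6 *
        (((∏ P ∈ S, (GP P).ncard : ℕ) : ℝ) / q ^ (3 * M.natDegree))) *
        (q ^ (3 * M.natDegree) * q ^ 6) =
        q ^ (12 * n + 3) * ((((∏ P ∈ S, (GP P).ncard : ℕ) : ℝ)) * V.ncard) := by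
      field_simp
    rw [h2]
    gcongr
  have : q ^ (12 * n + 3) * (dens (DualNumber F) * ∏ P ∈ S, dens (AdjoinRoot (P ^ 2)) - ε) =
      q ^ (12 * n + 3) * (dens (DualNumber F) * ∏ P ∈ S, dens (AdjoinRoot (P ^ 2))) -
        ε * q ^ (12 * n + 3) := by ring
  rw [this]
  linarith

end Pool.AVR
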