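import Pool.Agent.H14.AVR.Stmts3

/-!
# AVR, module PRD: the product of the densities is bounded below
-/

set_option autoImplicit false

namespace Pool.AVR

open Polynomial

namespace H10PRD

lemma exp_le {x : ℝ} (h0 : 0 ≤ x) (h1 : x ≤ 2 / 9) : Real.exp (-(2 * x)) ≤ 1 - x := by
  have hpos : 0 < 1 - x := by linarith
  have h := Real.one_sub_inv_le_log_of_pos hpos
  have h2 : -(2 * x) ≤ 1 - (1 - x)⁻¹ := by
    have : (1 - x)⁻¹ ≤ 1 + 2 * x := by
      rw [inv_le_comm₀ hpos (by linarith)]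
      rw [inv_eq_one_div, div_le_iff₀ (by linarith)]
      nlinarith
    linarith
  calc Real.exp (-(2 * x)) ≤ Real.exp (Real.log (1 - x)) := Real.exp_le_exp.mpr (h2.trans h)
    _ = 1 - x := Real.exp_log hpos

lemma card_deg {F : Type} [Field F] [Finite F] (S : Finset F[X]) (d : ℕ) :
    (S.filter (fun P => P.natDegree = d)).card ≤ Nat.card F ^ (d + 1) := by
  classical
  have hinj : Set.InjOn (fun P : F[X] => fun i : Fin (d + 1) => P.coeff i)
      (S.filter (fun P => P.natDegree = d) : Finset F[X]) := by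
    intro P hP Q hQ h
    simp only [Finset.mem_coe, Finset.mem_filter] at hP hQ
    ext i
    by_cases hi : i < d + 1
    · exact congrFun h ⟨i, hi⟩
    · rw [coeff_eq_zero_of_natDegree_lt (by omega), coeff_eq_zero_of_natDegree_lt (by omega)]
  have h1 : (S.filter (fun P => P.natDegree = d)).card ≤ Nat.card (Fin (d + 1) → F) := by
    let _ : Fintype (Fin (d + 1) → F) := Fintype.ofFinite _
    rw [Nat.card_eq_fintype_card, ← Finset.card_univ]
    exact Finset.card_le_card_of_injOn _ (fun _ _ => Finset.mem_coe.mpr (Finset.mem_univ _)) hinj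
  rw [Nat.card_fun, Nat.card_eq_fintype_card (α := Fin (d + 1)), Fintype.card_fin] at h1
  exact h1

lemma sum_le {F : Type} [Field F] [Finite F] (hq : 3 ≤ Nat.card F) (S : Finset F[X]) :
    ∑ P ∈ S, 1 / (Nat.card F : ℝ) ^ (2 * P.natDegree) ≤ 2 * Nat.card F := by
  classical
  set q : ℝ := (Nat.card F : ℝ) with hqdef
  have hq3 : (3 : ℝ) ≤ q := by rw [hqdef]; exact_mod_cast hq
  have hq0 : 0 < q := by linarith
  obtain ⟨m, hm⟩ : ∃ m, ∀ P ∈ S, P.natDegree ∈ Finset.range m := by
    refine ⟨S.sup natDegree + 1, fun P hP => ?_⟩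
    rw [Finset.mem_range]
    exact Nat.lt_succ_of_le (Finset.le_sup (f := natDegree) hP)
  rw [← Finset.sum_fiberwise_of_maps_to hm]
  have h1 : ∀ d ∈ Finset.range m, ∑ P ∈ S.filter (fun P => P.natDegree = d),
      1 / q ^ (2 * P.natDegree) ≤ q * (1 / q) ^ d := by
    intro d _
    have h2 : ∑ P ∈ S.filter (fun P => P.natDegree = d), 1 / q ^ (2 * P.natDegree) =
        (S.filter (fun P => P.natDegree = d)).card * (1 / q ^ (2 * d)) := by
      rw [Finset.sum_congr rfl (g := fun _ => 1 / q ^ (2 * d))]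
      · rw [Finset.sum_const, nsmul_eq_mul]
      · intro P hP
        rw [(Finset.mem_filter.mp hP).2]
    rw [h2]
    have h3 : ((S.filter (fun P => P.natDegree = d)).card : ℝ) ≤ q ^ (d + 1) := by
      have := card_deg S d
      rw [hqdef]
      exact_mod_cast this
    calc ((S.filter (fun P => P.natDegree = d)).card : ℝ) * (1 / q ^ (2 * d))
        ≤ q ^ (d + 1) * (1 / q ^ (2 * d)) := by gcongr
      _ = q * (1 / q) ^ d := by
        rw [one_div_pow, two_mul, pow_add, pow_add]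
        field_simp
  refine (Finset.sum_le_sum h1).trans ?_
  rw [← Finset.mul_sum]
  have h4 : ∑ d ∈ Finset.range m, (1 / q) ^ d ≤ 2 := by
    have hr0 : 0 ≤ 1 / q := by positivity
    have hr1 : 1 / q < 1 := by
      rw [div_lt_one hq0]; linarith
    have hs := summable_geometric_of_lt_one hr0 hr1
    calc ∑ d ∈ Finset.range m, (1 / q) ^ d ≤ ∑' d, (1 / q) ^ d :=
          hs.sum_le_tsum _ (fun _ _ => by positivity)
      _ = (1 - 1 / q)⁻¹ := tsum_geometric_of_lt_one hr0 hr1
      _ ≤ 2 := by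
        rw [inv_le_comm₀ (by linarith) (by norm_num)]
        have : 1 / q ≤ 1 / 3 := one_div_le_one_div_of_le (by norm_num) hq3
        norm_num at this ⊢
        linarith
  calc q * ∑ d ∈ Finset.range m, (1 / q) ^ d ≤ q * 2 := by gcongr
    _ = 2 * q := by ring

lemma card_ge {F : Type} [Field F] [Finite F] (h3 : (3 : F) = 0) : 3 ≤ Nat.card F := by
  have : Fact (Nat.Prime 3) := ⟨Nat.prime_three⟩
  have hc : CharP F 3 := by
    refine (CharP.charP_iff_prime_eq_zero Nat.prime_three).mpr ?_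
    exact_mod_cast h3
  let _ : Fintype F := Fintype.ofFinite F
  obtain ⟨n, _, hn⟩ := FiniteField.card F 3
  rw [Nat.card_eq_fintype_card, hn]
  exact Nat.le_self_pow (PNat.ne_zero n) 3

end H10PRD

open H10PRD in
theorem prd_thm (hDEL : DELStmt) (hLN2 : LN2Stmt) : PRDStmt := by
  intro F _ _ h3
  have hq := card_ge h3
  set q : ℝ := (Nat.card F : ℝ) with hqdef
  have hq3 : (3 : ℝ) ≤ q := by rw [hqdef]; exact_mod_cast hq
  obtain ⟨hA, hD1, hD2⟩ := hLN2 F
  refine ⟨7 / 9 * Real.exp (-(4 * (2 * q))), by positivity, ?_⟩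
  intro S hS
  have : Finite (DualNumber F) := inferInstanceAs (Finite (F × F))
  have h3D : (3 : DualNumber F) = 0 := by
    have : (3 : DualNumber F) = TrivSqZeroExt.inl (3 : F) := by
      rw [← Nat.cast_ofNat (R := DualNumber F) (n := 3), ← Nat.cast_ofNat (R := F) (n := 3)]
      exact (TrivSqZeroExt.inl_natCast 3).symm
    rw [this, h3, TrivSqZeroExt.inl_zero]
  have hd1 : (7 / 9 : ℝ) ≤ dens (DualNumber F) := by
    have h := hDEL (DualNumber F) DualNumber.eps hD1 h3D
    rw [hD2] at h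
    refine le_trans ?_ h
    have h9 : (9 : ℝ) ≤ q ^ 2 := by nlinarith
    have : 2 / q ^ 2 ≤ 2 / 9 := by gcongr
    rw [← hqdef]
    linarith
  have hd2 : ∀ P ∈ S, Real.exp (-(4 * (1 / q ^ (2 * P.natDegree)))) ≤
      dens (AdjoinRoot (P ^ 2)) := by
    intro P hP
    obtain ⟨hm, hi⟩ := hS P hP
    obtain ⟨hL, hfin, hres⟩ := hA P hm hi
    have := hfin
    have h3A : (3 : AdjoinRoot (P ^ 2)) = 0 := by
      have : (3 : AdjoinRoot (P ^ 2)) = AdjoinRoot.of (P ^ 2) (3 : F) := by
        rw [map_ofNat]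
      rw [this, h3, map_zero]
    have h := hDEL (AdjoinRoot (P ^ 2)) (AdjoinRoot.mk (P ^ 2) P) hL h3A
    rw [hres] at h
    have hdeg : 1 ≤ P.natDegree := hi.natDegree_pos
    have hx : 2 / ((Nat.card F ^ P.natDegree : ℕ) : ℝ) ^ 2 = 2 / q ^ (2 * P.natDegree) := by
      rw [Nat.cast_pow, ← pow_mul, mul_comm P.natDegree 2]
    rw [hx] at h
    have h9 : (9 : ℝ) ≤ q ^ (2 * P.natDegree) := by
      calc (9 : ℝ) ≤ q ^ 2 := by nlinarith
        _ ≤ q ^ (2 * P.natDegree) := pow_le_pow_right₀ (by linarith) (by omega)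
    have h4 : 2 / q ^ (2 * P.natDegree) ≤ 2 / 9 := by gcongr
    have h5 := exp_le (x := 2 / q ^ (2 * P.natDegree)) (by positivity) h4
    refine le_trans (le_of_eq ?_) (h5.trans h)
    congr 1
    ring
  have hprod : Real.exp (-(4 * (2 * q))) ≤ ∏ P ∈ S, dens (AdjoinRoot (P ^ 2)) := by
    calc Real.exp (-(4 * (2 * q)))
        ≤ Real.exp (∑ P ∈ S, -(4 * (1 / q ^ (2 * P.natDegree)))) := by
          apply Real.exp_le_exp.mpr
          rw [Finset.sum_neg_distrib, ← Finset.mul_sum]
          have := sum_le hq S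
          rw [← hqdef] at this
          linarith
      _ = ∏ P ∈ S, Real.exp (-(4 * (1 / q ^ (2 * P.natDegree)))) := Real.exp_sum _ _
      _ ≤ ∏ P ∈ S, dens (AdjoinRoot (P ^ 2)) :=
          Finset.prod_le_prod (fun _ _ => (Real.exp_pos _).le) hd2
  calc 7 / 9 * Real.exp (-(4 * (2 * q)))
      ≤ dens (DualNumber F) * ∏ P ∈ S, dens (AdjoinRoot (P ^ 2)) := by
        apply mul_le_mul hd1 hprod (Real.exp_pos _).le (by linarith)

end Pool.AVR
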